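import Mathlib

set_option autoImplicit false

open Set Filter Topology MeasureTheory

namespace Pool.Agent.V11293.TK

/-- the left half of a function on the unit interval, rescaled by two -/
noncomputable def LL (G : ℝ → ℝ) : ℝ → ℝ := fun u => 2 * G (u / 2)

/-- the right half of a function on the unit interval, rescaled by two -/
noncomputable def RR (G : ℝ → ℝ) : ℝ → ℝ := fun u => 2 * (G ((1 + u) / 2) - G (1 / 2))

/-- classes of functions closed under passing to halves -/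
structure Cl (P : (ℝ → ℝ) → Prop) : Prop where
  int : ∀ G, P G → ∃ k : ℤ, G 1 = k
  half : ∀ G, P G → 2 * G (1 / 2) = G 1 + 1 ∨ 2 * G (1 / 2) = G 1 - 1
  bdd : ∀ G, P G → ∀ t, 0 ≤ t → t ≤ 1 → |G t - t * G 1| ≤ 1
  left : ∀ G, P G → P (LL G)
  right : ∀ G, P G → P (RR G)
  neg : ∀ G, P G → P (fun t => - G t)

/-- the ordinates with an infinite level set -/
def SS (G : ℝ → ℝ) : Set ℝ := {y | {t | 0 ≤ t ∧ t ≤ 1 ∧ G t = y}.Infinite}

lemma LL_one (G : ℝ → ℝ) : LL G 1 = 2 * G (1 / 2) := rfl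

lemma RR_one (G : ℝ → ℝ) : RR G 1 = 2 * G 1 - 2 * G (1 / 2) := by
  unfold RR; norm_num; ring

lemma vol_pre (A : Set ℝ) (c : ℝ) : volume {y : ℝ | 2 * y - c ∈ A} = volume A / 2 := by
  have h1 : {y : ℝ | 2 * y - c ∈ A} = (fun y => 2 * y) ⁻¹' ((fun y => y - c) ⁻¹' A) := rfl
  rw [h1, Real.volume_preimage_mul_left (by norm_num : (2 : ℝ) ≠ 0)]
  have h2 : volume ((fun y => y - c) ⁻¹' A) = volume A := by
    have : (fun y : ℝ => y - c) = fun y => y + (-c) := by ext; ring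
    rw [this, measure_preimage_add_right]
  rw [h2, abs_of_pos (by norm_num), ENNReal.ofReal_inv_of_pos (by norm_num), ENNReal.div_eq_inv_mul]
  norm_num

lemma SS_sub (G : ℝ → ℝ) {y : ℝ} (hy : y ∈ SS G) :
    2 * y - 0 ∈ SS (LL G) ∨ 2 * y - 2 * G (1 / 2) ∈ SS (RR G) := by
  by_contra hcon
  push Not at hcon
  obtain ⟨h1, h2⟩ := hcon
  unfold SS at h1 h2 hy
  simp only [Set.mem_ofPred_eq, Set.not_infinite] at h1 h2 hy
  apply hy
  have h3 := (h1.image (fun u => u / 2)).union (h2.image (fun u => (1 + u) / 2))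
  refine h3.subset ?_
  rintro t ⟨ht0, ht1, hty⟩
  rcases le_total t (1 / 2) with h | h
  · left
    refine ⟨2 * t, ⟨by linarith, by linarith, ?_⟩, by simp⟩
    unfold LL
    rw [show 2 * t / 2 = t by ring, hty]; ring
  · right
    refine ⟨2 * t - 1, ⟨by linarith, by linarith, ?_⟩, by simp⟩
    unfold RR
    rw [show (1 + (2 * t - 1)) / 2 = t by ring, hty]; ring

variable {P : (ℝ → ℝ) → Prop}

/-- the supremum of the measures of the sets of bad ordinates for slope zero -/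
noncomputable def aa (P : (ℝ → ℝ) → Prop) : ENNReal := ⨆ G, ⨆ (_ : P G ∧ G 1 = 0), volume (SS G)

lemma le_aa {G : ℝ → ℝ} (h : P G) (h0 : G 1 = 0) : volume (SS G) ≤ aa P := by
  unfold aa
  exact le_iSup_of_le G (le_iSup_of_le ⟨h, h0⟩ le_rfl)

lemma SS_range (hP : Cl P) {G : ℝ → ℝ} (h : P G) (h0 : G 1 = 0) : SS G ⊆ Icc (-1) 1 := by
  intro y hy
  obtain ⟨t, ht0, ht1, rfl⟩ := hy.nonempty
  have := hP.bdd G h t ht0 ht1
  rw [h0, mul_zero, sub_zero] at this
  exact abs_le.1 this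

lemma aa_le (hP : Cl P) : aa P ≤ 2 := by
  unfold aa
  refine iSup_le fun G => iSup_le fun h => ?_
  refine (measure_mono (SS_range hP h.1 h.2)).trans ?_
  rw [Real.volume_Icc]
  norm_num

/-! ### first hits of slope zero -/

open Classical in
/-- union of the (rescaled) sets `Q g` over the nodes of depth `n` where the slope vanishes for the first time -/
noncomputable def Hs (Q : (ℝ → ℝ) → Set ℝ) : ℕ → (ℝ → ℝ) → Set ℝ
  | 0, G => if G 1 = 0 then Q G else ∅
  | n + 1, G => if G 1 = 0 then ∅ else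
      {y | 2 * y - 0 ∈ Hs Q n (LL G)} ∪ {y | 2 * y - 2 * G (1 / 2) ∈ Hs Q n (RR G)}

/-- first hitting probabilities of the simple random walk -/
noncomputable def pp : ℕ → ℕ → ENNReal
  | 0, k => if k = 0 then 1 else 0
  | n + 1, k => if k = 0 then 0 else (pp n (k + 1) + pp n (k - 1)) / 2

lemma pp_sum (N k : ℕ) : ∑ n ∈ Finset.range N, pp n k ≤ 1 := by
  induction N generalizing k with
  | zero => simp
  | succ N ih =>
    rw [Finset.sum_range_succ']
    by_cases hk : k = 0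
    · subst hk
      simp [pp]
    · simp only [pp, hk, if_false, add_zero]
      have : ∑ n ∈ Finset.range N, (pp n (k + 1) + pp n (k - 1)) / 2
          = (∑ n ∈ Finset.range N, pp n (k + 1) + ∑ n ∈ Finset.range N, pp n (k - 1)) / 2 := by
        rw [← Finset.sum_add_distrib, ENNReal.div_eq_inv_mul, Finset.mul_sum]
        simp_rw [ENNReal.div_eq_inv_mul]
      rw [this]
      refine (ENNReal.div_le_div_right (add_le_add (ih (k + 1)) (ih (k - 1))) 2).trans ?_
      rw [one_add_one_eq_two, ENNReal.div_self (by norm_num) (by norm_num)]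

lemma pp_tsum (k : ℕ) : ∑' n, pp n k ≤ 1 := by
  rw [ENNReal.tsum_eq_iSup_nat]
  exact iSup_le fun N => pp_sum N k

lemma slopes (hP : Cl P) {G : ℝ → ℝ} (h : P G) {k : ℕ} (hk : G 1 = k) (hk0 : k ≠ 0) :
    (LL G 1 = ((k + 1 : ℕ) : ℝ) ∧ RR G 1 = ((k - 1 : ℕ) : ℝ)) ∨
    (LL G 1 = ((k - 1 : ℕ) : ℝ) ∧ RR G 1 = ((k + 1 : ℕ) : ℝ)) := by
  have hc : ((k - 1 : ℕ) : ℝ) = k - 1 := by rw [Nat.cast_sub (by omega)]; simp
  rw [LL_one, RR_one, hc]
  push_cast
  rcases hP.half G h with h1 | h1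
  · left; constructor <;> linarith
  · right; constructor <;> linarith

lemma Hs_vol (hP : Cl P) (Q : (ℝ → ℝ) → Set ℝ) (b : ENNReal)
    (hQ : ∀ G, P G → G 1 = 0 → volume (Q G) ≤ b) (n : ℕ) :
    ∀ (G : ℝ → ℝ) (k : ℕ), P G → G 1 = k → volume (Hs Q n G) ≤ pp n k * b := by
  induction n with
  | zero =>
    intro G k h hk
    unfold Hs pp
    by_cases hk0 : k = 0
    · subst hk0
      have hk' : G 1 = 0 := by simpa using hk
      rw [if_pos hk', if_pos rfl, one_mul]
      exact hQ G h hk'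
    · have hk' : G 1 ≠ 0 := by rw [hk]; exact_mod_cast hk0
      rw [if_neg hk', if_neg hk0]
      simp
  | succ n ih =>
    intro G k h hk
    unfold Hs pp
    by_cases hk0 : k = 0
    · subst hk0
      have hk' : G 1 = 0 := by simpa using hk
      rw [if_pos hk', if_pos rfl]
      simp
    · have hk' : G 1 ≠ 0 := by rw [hk]; exact_mod_cast hk0
      rw [if_neg hk', if_neg hk0]
      refine (measure_union_le _ _).trans ?_
      rw [vol_pre, vol_pre, ← ENNReal.add_div, ENNReal.div_eq_inv_mul, ENNReal.div_eq_inv_mul, mul_assoc]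
      gcongr
      rw [add_mul]
      rcases slopes hP h hk hk0 with ⟨h1, h2⟩ | ⟨h1, h2⟩
      · exact add_le_add (ih _ _ (hP.left G h) h1) (ih _ _ (hP.right G h) h2)
      · rw [add_comm (pp n (k + 1) * b)]
        exact add_le_add (ih _ _ (hP.left G h) h1) (ih _ _ (hP.right G h) h2)


/-- the path of `t` reaches slope zero for the first time at depth `n` -/
def Hit : ℕ → (ℝ → ℝ) → ℝ → Prop
  | 0, G, _ => G 1 = 0
  | n + 1, G, t => G 1 ≠ 0 ∧
      ((t ≤ 1 / 2 ∧ Hit n (LL G) (2 * t)) ∨ (1 / 2 ≤ t ∧ Hit n (RR G) (2 * t - 1)))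

lemma LL_two (G : ℝ → ℝ) (t : ℝ) : LL G (2 * t) = 2 * G t := by
  unfold LL; rw [show 2 * t / 2 = t by ring]

lemma RR_two (G : ℝ → ℝ) (t : ℝ) : RR G (2 * t - 1) = 2 * G t - 2 * G (1 / 2) := by
  unfold RR; rw [show (1 + (2 * t - 1)) / 2 = t by ring]; ring

lemma F1 (hP : Cl P) (n : ℕ) : ∀ (G : ℝ → ℝ) (t : ℝ), P G → 0 ≤ t → t ≤ 1 → Hit n G t →
    G t ∈ Hs (fun _ => Icc (-1) 1) n G := by
  induction n with
  | zero =>
    intro G t h h0 h1 hh
    unfold Hit at hh
    unfold Hs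
    rw [if_pos hh]
    have := hP.bdd G h t h0 h1
    rw [hh, mul_zero, sub_zero] at this
    exact abs_le.1 this
  | succ n ih =>
    intro G t h h0 h1 hh
    unfold Hit at hh
    unfold Hs
    rw [if_neg hh.1]
    rcases hh.2 with ⟨ht, hh⟩ | ⟨ht, hh⟩
    · left
      have := ih _ _ (hP.left G h) (by linarith) (by linarith) hh
      rw [LL_two] at this
      simpa using this
    · right
      have := ih _ _ (hP.right G h) (by linarith) (by linarith) hh
      rw [RR_two] at this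
      exact this

lemma F2 (n : ℕ) : ∀ (G : ℝ → ℝ) (y : ℝ), y ∉ Hs SS n G →
    {t | 0 ≤ t ∧ t ≤ 1 ∧ Hit n G t ∧ G t = y}.Finite := by
  induction n with
  | zero =>
    intro G y hy
    by_cases h0 : G 1 = 0
    · unfold Hs at hy
      rw [if_pos h0] at hy
      unfold SS at hy
      simp only [Set.mem_ofPred_eq, Set.not_infinite] at hy
      refine hy.subset ?_
      rintro t ⟨h1, h2, _, h3⟩
      exact ⟨h1, h2, h3⟩
    · refine Set.finite_empty.subset ?_
      rintro t ⟨_, _, h3, _⟩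
      exact h0 h3
  | succ n ih =>
    intro G y hy
    by_cases h0 : G 1 = 0
    · refine Set.finite_empty.subset ?_
      rintro t ⟨_, _, h3, _⟩
      exact h3.1 h0
    · unfold Hs at hy
      rw [if_neg h0] at hy
      simp only [Set.mem_union, Set.mem_ofPred_eq, not_or] at hy
      obtain ⟨h1, h2⟩ := hy
      have h3 := ((ih _ _ h1).image (fun u => u / 2)).union
        ((ih _ _ h2).image (fun u => (1 + u) / 2))
      refine h3.subset ?_
      rintro t ⟨ht0, ht1, hh, hty⟩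
      rcases hh.2 with ⟨ht, hh⟩ | ⟨ht, hh⟩
      · left
        refine ⟨2 * t, ⟨by linarith, by linarith, hh, ?_⟩, by simp⟩
        rw [LL_two, hty]; ring
      · right
        refine ⟨2 * t - 1, ⟨by linarith, by linarith, hh, ?_⟩, by simp⟩
        rw [RR_two, hty]

lemma not_hit_left {G : ℝ → ℝ} {t : ℝ} {n : ℕ} (h0 : G 1 ≠ 0) (ht : t ≤ 1 / 2)
    (h : ¬ Hit (n + 1) G t) : ¬ Hit n (LL G) (2 * t) := fun hh => h ⟨h0, Or.inl ⟨ht, hh⟩⟩

lemma not_hit_right {G : ℝ → ℝ} {t : ℝ} {n : ℕ} (h0 : G 1 ≠ 0) (ht : 1 / 2 ≤ t)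
    (h : ¬ Hit (n + 1) G t) : ¬ Hit n (RR G) (2 * t - 1) := fun hh => h ⟨h0, Or.inr ⟨ht, hh⟩⟩

lemma F4a (hP : Cl P) (n : ℕ) : ∀ (G : ℝ → ℝ) (k : ℕ) (t : ℝ), P G → G 1 = k → 0 ≤ t → t ≤ 1 →
    (∀ m ≤ n, ¬ Hit m G t) → -(1 / 2) ^ n ≤ G t ∧ G t ≤ k + (1 / 2) ^ n := by
  induction n with
  | zero =>
    intro G k t h hk h0 h1 _
    have h2 := abs_le.1 (hP.bdd G h t h0 h1)
    rw [hk] at h2
    have hk0 : (0 : ℝ) ≤ k := Nat.cast_nonneg k
    have h3 : 0 ≤ t * k := mul_nonneg h0 hk0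
    have h4 : t * k ≤ k := mul_le_of_le_one_left hk0 h1
    simp only [pow_zero]
    constructor <;> linarith [h2.1, h2.2]
  | succ n ih =>
    intro G k t h hk h0 h1 hh
    have hk1 : G 1 ≠ 0 := hh 0 (Nat.zero_le _)
    have hk0 : k ≠ 0 := by
      rintro rfl
      exact hk1 (by simpa using hk)
    have hkk : (1 : ℝ) ≤ k := by exact_mod_cast Nat.one_le_iff_ne_zero.2 hk0
    have hc : ((k - 1 : ℕ) : ℝ) = k - 1 := by rw [Nat.cast_sub (by omega)]; simp
    rcases le_total t (1 / 2) with ht | ht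
    · have key : ∃ j : ℕ, LL G 1 = j ∧ (j : ℝ) ≤ k + 1 := by
        rcases slopes hP h hk hk0 with ⟨h2, _⟩ | ⟨h2, _⟩
        · exact ⟨_, h2, by push_cast; exact le_rfl⟩
        · exact ⟨_, h2, by rw [hc]; linarith⟩
      obtain ⟨j, hj, hj2⟩ := key
      have h3 := ih (LL G) j (2 * t) (hP.left G h) hj (by linarith) (by linarith)
        (fun m hm => not_hit_left hk1 ht (hh (m + 1) (by omega)))
      rw [LL_two] at h3
      rw [pow_succ]
      constructor <;> linarith [h3.1, h3.2]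
    · have key : ∃ j : ℕ, RR G 1 = j ∧ 0 ≤ G (1 / 2) ∧ (j : ℝ) = 2 * k - 2 * G (1 / 2) := by
        have h4 := RR_one G
        have h5 := LL_one G
        rcases slopes hP h hk hk0 with ⟨h2, h3⟩ | ⟨h2, h3⟩
        · refine ⟨_, h3, ?_, ?_⟩
          · rw [h5] at h2
            push_cast at h2
            linarith
          · rw [← h3, h4, hk]
        · refine ⟨_, h3, ?_, ?_⟩
          · rw [h5, hc] at h2
            linarith
          · rw [← h3, h4, hk]
      obtain ⟨j, hj, hj2, hj3⟩ := key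
      have h3 := ih (RR G) j (2 * t - 1) (hP.right G h) hj (by linarith) (by linarith)
        (fun m hm => not_hit_right hk1 ht (hh (m + 1) (by omega)))
      rw [RR_two] at h3
      rw [pow_succ]
      constructor <;> linarith [h3.1, h3.2]

lemma F4 (hP : Cl P) {G : ℝ → ℝ} {k : ℕ} {t : ℝ} (h : P G) (hk : G 1 = k) (h0 : 0 ≤ t)
    (h1 : t ≤ 1) (hh : ∀ m, ¬ Hit m G t) : 0 ≤ G t ∧ G t ≤ k := by
  have hl : Tendsto (fun n : ℕ => ((1 : ℝ) / 2) ^ n) atTop (𝓝 0) :=
    tendsto_pow_atTop_nhds_zero_of_lt_one (by norm_num) (by norm_num)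
  constructor
  · have h2 := hl.neg
    rw [neg_zero] at h2
    exact le_of_tendsto' h2 fun n => (F4a hP n G k t h hk h0 h1 (fun m _ => hh m)).1
  · have h2 := (tendsto_const_nhds (x := (k : ℝ))).add hl
    rw [add_zero] at h2
    exact ge_of_tendsto' h2 fun n => (F4a hP n G k t h hk h0 h1 (fun m _ => hh m)).2

lemma F3 (hP : Cl P) (n : ℕ) : ∀ (G : ℝ → ℝ) (k : ℕ) (t t' : ℝ), P G → G 1 = k → 0 ≤ t → t' ≤ 1 →
    (1 / 2) ^ n ≤ t' - t → (∀ m, ¬ Hit m G t) → (∀ m, ¬ Hit m G t') → G t = G t' →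
    ∃ q : ℚ, G t = G q := by
  induction n with
  | zero =>
    intro G k t t' h hk h0 h1 hd _ _ _
    rw [pow_zero] at hd
    have : t = ((0 : ℚ) : ℝ) := by
      rw [Rat.cast_zero]
      linarith
    exact ⟨0, by rw [this]⟩
  | succ n ih =>
    intro G k t t' h hk h0 h1 hd hh hh' he
    have hpos : (0 : ℝ) < (1 / 2) ^ (n + 1) := by positivity
    have hk1 : G 1 ≠ 0 := hh 0
    have hk0 : k ≠ 0 := by
      rintro rfl
      exact hk1 (by simpa using hk)
    rcases le_total t' (1 / 2) with ht' | ht'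
    · have key : ∃ j : ℕ, LL G 1 = j := by
        rcases slopes hP h hk hk0 with ⟨h2, _⟩ | ⟨h2, _⟩
        · exact ⟨_, h2⟩
        · exact ⟨_, h2⟩
      obtain ⟨j, hj⟩ := key
      have ht : t ≤ 1 / 2 := by linarith
      obtain ⟨q, hq⟩ := ih (LL G) j (2 * t) (2 * t') (hP.left G h) hj (by linarith) (by linarith)
        (by rw [pow_succ] at hd; linarith)
        (fun m => not_hit_left hk1 ht (hh (m + 1))) (fun m => not_hit_left hk1 ht' (hh' (m + 1)))
        (by rw [LL_two, LL_two, he])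
      refine ⟨q / 2, ?_⟩
      rw [LL_two] at hq
      unfold LL at hq
      push_cast
      linarith
    · rcases le_total t (1 / 2) with ht | ht
      · have key : ∃ j j' : ℕ, LL G 1 = j ∧ RR G 1 = j' := by
          rcases slopes hP h hk hk0 with ⟨h2, h3⟩ | ⟨h2, h3⟩
          · exact ⟨_, _, h2, h3⟩
          · exact ⟨_, _, h2, h3⟩
        obtain ⟨j, j', hj, hj'⟩ := key
        have h2 := F4 hP (hP.left G h) hj (t := 2 * t) (by linarith) (by linarith)
          (fun m => not_hit_left hk1 ht (hh (m + 1)))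
        have h3 := F4 hP (hP.right G h) hj' (t := 2 * t' - 1) (by linarith) (by linarith)
          (fun m => not_hit_right hk1 ht' (hh' (m + 1)))
        rw [LL_two, ← hj, LL_one] at h2
        rw [RR_two] at h3
        refine ⟨1 / 2, ?_⟩
        push_cast
        apply le_antisymm
        · linarith [h2.2]
        · rw [he]; linarith [h3.1]
      · have key : ∃ j : ℕ, RR G 1 = j := by
          rcases slopes hP h hk hk0 with ⟨_, h2⟩ | ⟨_, h2⟩
          · exact ⟨_, h2⟩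
          · exact ⟨_, h2⟩
        obtain ⟨j, hj⟩ := key
        obtain ⟨q, hq⟩ := ih (RR G) j (2 * t - 1) (2 * t' - 1) (hP.right G h) hj (by linarith)
          (by linarith) (by rw [pow_succ] at hd; linarith)
          (fun m => not_hit_right hk1 ht (hh (m + 1)))
          (fun m => not_hit_right hk1 ht' (hh' (m + 1)))
          (by rw [RR_two, RR_two, he])
        refine ⟨(1 + q) / 2, ?_⟩
        rw [RR_two] at hq
        unfold RR at hq
        push_cast
        linarith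

lemma F3' (hP : Cl P) {G : ℝ → ℝ} {k : ℕ} {t t' : ℝ} (h : P G) (hk : G 1 = k) (h0 : 0 ≤ t)
    (h1 : t' ≤ 1) (hd : t < t') (hh : ∀ m, ¬ Hit m G t) (hh' : ∀ m, ¬ Hit m G t')
    (he : G t = G t') : ∃ q : ℚ, G t = G q := by
  obtain ⟨n, hn⟩ := exists_pow_lt_of_lt_one (show (0 : ℝ) < t' - t by linarith)
    (show (1 : ℝ) / 2 < 1 by norm_num)
  exact F3 hP n G k t t' h hk h0 h1 hn.le hh hh' he

lemma SS_cover (hP : Cl P) {G : ℝ → ℝ} {k : ℕ} (h : P G) (hk : G 1 = k) :
    SS G ⊆ (Set.range (fun q : ℚ => G q) ∪ limsup (fun n => Hs (fun _ => Icc (-1) 1) n G) atTop)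
      ∪ ⋃ n, Hs SS n G := by
  intro y hy
  by_contra hcon
  simp only [Set.mem_union, not_or, Set.mem_iUnion, not_exists] at hcon
  obtain ⟨⟨h1, h2⟩, h3⟩ := hcon
  rw [limsup_eq_iInf_iSup_of_nat] at h2
  simp only [Set.iInf_eq_iInter, Set.iSup_eq_iUnion, Set.mem_iInter, Set.mem_iUnion, not_forall,
    not_exists] at h2
  obtain ⟨M, hM⟩ := h2
  have hfin : (⋃ n ∈ Finset.range M, {t | 0 ≤ t ∧ t ≤ 1 ∧ Hit n G t ∧ G t = y}).Finite :=
    Set.Finite.biUnion (Finset.finite_toSet _) fun n _ => F2 n G y (h3 n)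
  have hnh : {t | 0 ≤ t ∧ t ≤ 1 ∧ (∀ m, ¬ Hit m G t) ∧ G t = y}.Subsingleton := by
    rintro t ⟨a1, a2, a3, a4⟩ t' ⟨b1, b2, b3, b4⟩
    by_contra hne
    rcases lt_or_gt_of_ne hne with hlt | hlt
    · obtain ⟨q, hq⟩ := F3' hP h hk a1 b2 hlt a3 b3 (by rw [a4, b4])
      exact h1 ⟨q, by rw [← a4, hq]⟩
    · obtain ⟨q, hq⟩ := F3' hP h hk b1 a2 hlt b3 a3 (by rw [a4, b4])
      exact h1 ⟨q, by rw [← b4, hq]⟩
  apply hy
  refine (hfin.union hnh.finite).subset ?_
  rintro t ⟨ht0, ht1, hty⟩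
  by_cases hh : ∃ m, Hit m G t
  · left
    obtain ⟨m, hm⟩ := hh
    rw [Set.mem_iUnion₂]
    refine ⟨m, ?_, ht0, ht1, hm, hty⟩
    rw [Finset.mem_range]
    by_contra hge
    push Not at hge
    apply hM m hge
    rw [← hty]
    exact F1 hP m G t h ht0 ht1 hm
  · right
    push Not at hh
    exact ⟨ht0, ht1, hh, hty⟩

lemma vol_le_nat (hP : Cl P) {G : ℝ → ℝ} {k : ℕ} (h : P G) (hk : G 1 = k) :
    volume (SS G) ≤ aa P := by
  refine (measure_mono (SS_cover hP h hk)).trans ?_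
  refine (measure_union_le _ _).trans ?_
  have h1 : volume (Set.range (fun q : ℚ => G q) ∪
      limsup (fun n => Hs (fun _ => Icc (-1) 1) n G) atTop) = 0 := by
    refine measure_union_null (Set.Countable.measure_zero (Set.countable_range _) _) ?_
    apply measure_limsup_atTop_eq_zero
    have h2 : ∀ n, volume (Hs (fun _ => Icc (-1 : ℝ) 1) n G) ≤ pp n k * 2 := fun n =>
      Hs_vol hP (fun _ => Icc (-1) 1) 2 (fun G _ _ => by rw [Real.volume_Icc]; norm_num) n G k h hk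
    refine ne_top_of_le_ne_top ?_ (ENNReal.tsum_le_tsum h2)
    rw [ENNReal.tsum_mul_right]
    exact ENNReal.mul_ne_top (ne_top_of_le_ne_top ENNReal.one_ne_top (pp_tsum k)) (by norm_num)
  rw [h1, zero_add]
  refine (measure_iUnion_le _).trans ?_
  have h2 : ∀ n, volume (Hs SS n G) ≤ pp n k * aa P := fun n =>
    Hs_vol hP SS (aa P) (fun G h h0 => le_aa h h0) n G k h hk
  refine (ENNReal.tsum_le_tsum h2).trans ?_
  rw [ENNReal.tsum_mul_right]
  calc (∑' n, pp n k) * aa P ≤ 1 * aa P := by gcongr; exact pp_tsum k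
    _ = aa P := one_mul _

lemma SS_neg (G : ℝ → ℝ) : SS (fun t => - G t) = (fun y => -y) ⁻¹' SS G := by
  ext y
  unfold SS
  simp only [Set.mem_ofPred_eq, Set.mem_preimage]
  have : {t | 0 ≤ t ∧ t ≤ 1 ∧ -G t = y} = {t | 0 ≤ t ∧ t ≤ 1 ∧ G t = -y} := by
    ext t
    simp only [Set.mem_ofPred_eq]
    constructor
    · rintro ⟨h1, h2, h3⟩; exact ⟨h1, h2, by linarith⟩
    · rintro ⟨h1, h2, h3⟩; exact ⟨h1, h2, by linarith⟩
  rw [this]

lemma vol_neg (G : ℝ → ℝ) : volume (SS (fun t => - G t)) = volume (SS G) := by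
  rw [SS_neg]
  exact Measure.measure_preimage_neg (volume : Measure ℝ) (SS G)

lemma vol_le (hP : Cl P) {G : ℝ → ℝ} (h : P G) : volume (SS G) ≤ aa P := by
  obtain ⟨k, hk⟩ := hP.int G h
  rcases le_total 0 k with h0 | h0
  · obtain ⟨m, rfl⟩ := Int.eq_ofNat_of_zero_le h0
    exact vol_le_nat hP h (by simpa using hk)
  · obtain ⟨m, hm⟩ := Int.eq_ofNat_of_zero_le (show 0 ≤ -k by omega)
    rw [← vol_neg]
    refine vol_le_nat hP (k := m) (hP.neg G h) ?_
    have : (k : ℝ) = -m := by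
      have : k = -m := by omega
      rw [this]; push_cast; ring
    simp only [hk, this, neg_neg]

end Pool.Agent.V11293.TK
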