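import Pool.Agent.V11293.TK.Core

set_option autoImplicit false

open Set Filter Topology MeasureTheory

namespace Pool.Agent.V11293.TK

open Classical in
/-- number of nodes of depth `N` whose graph stays inside the window `[p, q]` -/
noncomputable def cnt : ℕ → (ℝ → ℝ) → ℝ → ℝ → ℕ
  | 0, G, p, q => if ∀ t, 0 ≤ t → t ≤ 1 → p ≤ G t ∧ G t ≤ q then 1 else 0
  | N + 1, G, p, q => cnt N (LL G) (2 * p) (2 * q) +
      cnt N (RR G) (2 * p - 2 * G (1 / 2)) (2 * q - 2 * G (1 / 2))

lemma cnt_le (N : ℕ) : ∀ (G : ℝ → ℝ) (p q : ℝ), cnt N G p q ≤ 2 ^ N := by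
  induction N with
  | zero => intro G p q; unfold cnt; split_ifs <;> simp
  | succ N ih =>
    intro G p q
    unfold cnt
    rw [pow_succ]
    have h1 := ih (LL G) (2 * p) (2 * q)
    have h2 := ih (RR G) (2 * p - 2 * G (1 / 2)) (2 * q - 2 * G (1 / 2))
    omega

lemma LL_neg (G : ℝ → ℝ) : LL (fun t => - G t) = fun t => - LL G t := by
  ext u; unfold LL; ring

lemma RR_neg (G : ℝ → ℝ) : RR (fun t => - G t) = fun t => - RR G t := by
  ext u; unfold RR; ring

lemma cnt_neg (N : ℕ) : ∀ (G : ℝ → ℝ) (p q : ℝ), cnt N (fun t => - G t) (-q) (-p) = cnt N G p q := by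
  induction N with
  | zero =>
    intro G p q
    unfold cnt
    congr 1
    apply propext
    constructor
    · intro h t h0 h1
      have := h t h0 h1
      constructor <;> linarith [this.1, this.2]
    · intro h t h0 h1
      have := h t h0 h1
      constructor <;> linarith [this.1, this.2]
  | succ N ih =>
    intro G p q
    unfold cnt
    rw [LL_neg, RR_neg]
    congr 1
    · rw [← ih (LL G)]
      congr 1 <;> ring
    · rw [← ih (RR G)]
      congr 1 <;> ring

variable {P : (ℝ → ℝ) → Prop}

lemma vol_out (hP : Cl P) (N : ℕ) : ∀ (G : ℝ → ℝ) (p q : ℝ), P G →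
    volume (SS G \ Icc p q) ≤ ((2 ^ N - cnt N G p q : ℕ) : ENNReal) / 2 ^ N * aa P := by
  induction N with
  | zero =>
    intro G p q h
    unfold cnt
    split_ifs with hh
    · have : SS G \ Icc p q = ∅ := by
        rw [Set.sdiff_eq_empty]
        intro y hy
        obtain ⟨t, ht0, ht1, rfl⟩ := hy.nonempty
        exact hh t ht0 ht1
      rw [this]
      simp
    · simp only [pow_zero, Nat.sub_zero, Nat.cast_one, div_one, one_mul]
      exact (measure_mono Set.sdiff_subset).trans (vol_le hP h)
  | succ N ih =>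
    intro G p q h
    have hsub : SS G \ Icc p q ⊆ {y | 2 * y - 0 ∈ SS (LL G) \ Icc (2 * p) (2 * q)} ∪
        {y | 2 * y - 2 * G (1 / 2) ∈ SS (RR G) \
          Icc (2 * p - 2 * G (1 / 2)) (2 * q - 2 * G (1 / 2))} := by
      rintro y ⟨hy, hy2⟩
      rcases SS_sub G hy with h1 | h1
      · left
        refine ⟨h1, fun h2 => hy2 ?_⟩
        have := h2.1
        have := h2.2
        constructor <;> linarith
      · right
        refine ⟨h1, fun h2 => hy2 ?_⟩
        have := h2.1
        have := h2.2
        constructor <;> linarith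
    refine (measure_mono hsub).trans ((measure_union_le _ _).trans ?_)
    rw [vol_pre, vol_pre, ← ENNReal.add_div]
    have h1 := ih (LL G) (2 * p) (2 * q) (hP.left G h)
    have h2 := ih (RR G) (2 * p - 2 * G (1 / 2)) (2 * q - 2 * G (1 / 2)) (hP.right G h)
    refine (ENNReal.div_le_div_right (add_le_add h1 h2) 2).trans ?_
    have h3 := cnt_le N (LL G) (2 * p) (2 * q)
    have h4 := cnt_le N (RR G) (2 * p - 2 * G (1 / 2)) (2 * q - 2 * G (1 / 2))
    have h5 : (2 ^ (N + 1) - cnt (N + 1) G p q : ℕ) = (2 ^ N - cnt N (LL G) (2 * p) (2 * q)) +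
        (2 ^ N - cnt N (RR G) (2 * p - 2 * G (1 / 2)) (2 * q - 2 * G (1 / 2))) := by
      have : cnt (N + 1) G p q = cnt N (LL G) (2 * p) (2 * q) +
        cnt N (RR G) (2 * p - 2 * G (1 / 2)) (2 * q - 2 * G (1 / 2)) := rfl
      rw [this, pow_succ]
      omega
    rw [h5, ← add_mul, ← ENNReal.add_div, ← Nat.cast_add]
    apply le_of_eq
    rw [ENNReal.div_eq_inv_mul, ENNReal.div_eq_inv_mul, ENNReal.div_eq_inv_mul, pow_succ,
      ENNReal.mul_inv (by simp) (by simp)]
    ring

lemma abs_uIcc {a b g : ℝ} (ha : a ∈ uIcc 0 g) (hb : b ∈ uIcc 0 g) : |a - b| ≤ |g| := by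
  rw [Set.mem_uIcc] at ha hb
  rcases le_total 0 g with hg | hg
  · rw [abs_of_nonneg hg, abs_le]
    rcases ha with ha | ha <;> rcases hb with hb | hb <;> constructor <;>
      linarith [ha.1, ha.2, hb.1, hb.2]
  · rw [abs_of_nonpos hg, abs_le]
    rcases ha with ha | ha <;> rcases hb with hb | hb <;> constructor <;>
      linarith [ha.1, ha.2, hb.1, hb.2]

/-- the strand lemma: well separated ordinates strictly inside the window give distinct inner nodes -/
lemma strand (hP : Cl P) (C : ℝ) (hC : 0 ≤ C) (N : ℕ) : ∀ (G : ℝ → ℝ) (p q : ℝ) (Y : Finset ℝ), P G →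
    |G 1| + N ≤ C → (∀ y ∈ Y, y ∈ uIcc 0 (G 1) ∧ p + (C + 1) / 2 ^ N ≤ y ∧ y ≤ q - (C + 1) / 2 ^ N) →
    (∀ y ∈ Y, ∀ y' ∈ Y, y ≠ y' → C / 2 ^ N < |y - y'|) → Y.card ≤ cnt N G p q := by
  induction N with
  | zero =>
    intro G p q Y h hs hY hd
    simp only [pow_zero, div_one, Nat.cast_zero, add_zero] at hs hY hd
    rcases Y.eq_empty_or_nonempty with rfl | ⟨y, hy⟩
    · simp
    · have h1 : Y.card ≤ 1 := by
        rw [Finset.card_le_one]
        intro a ha b hb
        by_contra hne
        have h2 := hd a ha b hb hne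
        have h3 := (hY a ha).1
        have h4 := (hY b hb).1
        have h5 : |a - b| ≤ |G 1| := abs_uIcc h3 h4
        linarith
      have h2 : cnt 0 G p q = 1 := by
        unfold cnt
        rw [if_pos]
        intro t h0 h1
        have h3 := abs_le.1 (hP.bdd G h t h0 h1)
        obtain ⟨h4, h5, h6⟩ := hY y hy
        have h7 : |t * G 1 - y| ≤ |G 1| := by
          have h8 : t * G 1 ∈ uIcc 0 (G 1) := by
            rw [Set.mem_uIcc]
            rcases le_total 0 (G 1) with hg | hg
            · left; constructor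
              · positivity
              · exact mul_le_of_le_one_left hg h1
            · right; constructor
              · nlinarith
              · nlinarith
          exact abs_uIcc h8 h4
        have h8 := abs_le.1 h7
        constructor <;> linarith [h3.1, h3.2, h8.1, h8.2]
      omega
  | succ N ih =>
    intro G p q Y h hs hY hd
    classical
    set m : ℝ := G (1 / 2) with hm
    have hL1 : LL G 1 = 2 * m := rfl
    have hR1 : RR G 1 = 2 * G 1 - 2 * m := RR_one G
    push_cast at hs
    have hmm : |2 * m| ≤ |G 1| + 1 ∧ |2 * G 1 - 2 * m| ≤ |G 1| + 1 := by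
      rcases hP.half G h with h1 | h1
      · constructor
        · rw [h1]; exact (abs_add_le _ _).trans (by simp)
        · rw [h1, show 2 * G 1 - (G 1 + 1) = G 1 + (-1) by ring]
          exact (abs_add_le _ _).trans (by simp)
      · constructor
        · rw [h1, sub_eq_add_neg]; exact (abs_add_le _ _).trans (by simp)
        · rw [h1, show 2 * G 1 - (G 1 - 1) = G 1 + 1 by ring]
          exact (abs_add_le _ _).trans (by simp)
    have hp : (2 : ℝ) ^ (N + 1) = 2 * 2 ^ N := by rw [pow_succ]; ring
    have hp0 : (0 : ℝ) < 2 ^ N := by positivity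
    have e1 : (C + 1) / 2 ^ (N + 1) = (C + 1) / 2 ^ N / 2 := by
      rw [hp]; field_simp
    have e2 : C / 2 ^ (N + 1) = C / 2 ^ N / 2 := by
      rw [hp]; field_simp
    rw [e1] at hY
    rw [e2] at hd
    set YL := Y.filter (fun y => y ∈ uIcc 0 m) with hYL
    set YR := Y.filter (fun y => ¬ y ∈ uIcc 0 m) with hYR
    have hcard : Y.card = YL.card + YR.card := (Finset.card_filter_add_card_filter_not _).symm
    have hinj1 : Function.Injective (fun y : ℝ => 2 * y) := fun a b hab => by
      simp only at hab; linarith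
    have hinj2 : Function.Injective (fun y : ℝ => 2 * y - 2 * m) := fun a b hab => by
      simp only at hab; linarith
    have h1 : (YL.image (fun y => 2 * y)).card ≤ cnt N (LL G) (2 * p) (2 * q) := by
      apply ih (LL G) (2 * p) (2 * q) _ (hP.left G h)
      · rw [hL1]; linarith [hmm.1]
      · intro y hy
        rw [Finset.mem_image] at hy
        obtain ⟨z, hz, rfl⟩ := hy
        rw [hYL, Finset.mem_filter] at hz
        obtain ⟨hz1, hz2⟩ := hz
        obtain ⟨_, h4, h5⟩ := hY z hz1
        refine ⟨?_, by linarith, by linarith⟩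
        rw [hL1]
        rw [Set.mem_uIcc] at hz2 ⊢
        rcases hz2 with hz2 | hz2
        · left; constructor <;> linarith [hz2.1, hz2.2]
        · right; constructor <;> linarith [hz2.1, hz2.2]
      · intro y hy y' hy' hne
        rw [Finset.mem_image] at hy hy'
        obtain ⟨z, hz, rfl⟩ := hy
        obtain ⟨z', hz', rfl⟩ := hy'
        have h6 := hd z (Finset.mem_filter.1 hz).1 z' (Finset.mem_filter.1 hz').1
          (fun hzz => hne (by rw [hzz]))
        rw [show 2 * z - 2 * z' = 2 * (z - z') by ring, abs_mul, abs_of_pos (by norm_num : (0:ℝ) < 2)]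
        linarith
    have h2 : (YR.image (fun y => 2 * y - 2 * m)).card ≤
        cnt N (RR G) (2 * p - 2 * m) (2 * q - 2 * m) := by
      apply ih (RR G) (2 * p - 2 * m) (2 * q - 2 * m) _ (hP.right G h)
      · rw [hR1]; linarith [hmm.2]
      · intro y hy
        rw [Finset.mem_image] at hy
        obtain ⟨z, hz, rfl⟩ := hy
        rw [hYR, Finset.mem_filter] at hz
        obtain ⟨hz1, hz2⟩ := hz
        obtain ⟨h3, h4, h5⟩ := hY z hz1
        refine ⟨?_, by linarith, by linarith⟩
        rw [hR1]
        have h7 : z ∈ uIcc m (G 1) := by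
          rcases Set.uIcc_subset_uIcc_union_uIcc (a := (0 : ℝ)) (b := m) (c := G 1) h3 with h8 | h8
          · exact absurd h8 hz2
          · exact h8
        rw [Set.mem_uIcc] at h7 ⊢
        rcases h7 with h7 | h7
        · left; constructor <;> linarith [h7.1, h7.2]
        · right; constructor <;> linarith [h7.1, h7.2]
      · intro y hy y' hy' hne
        rw [Finset.mem_image] at hy hy'
        obtain ⟨z, hz, rfl⟩ := hy
        obtain ⟨z', hz', rfl⟩ := hy'
        have h6 := hd z (Finset.mem_filter.1 hz).1 z' (Finset.mem_filter.1 hz').1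
          (fun hzz => hne (by rw [hzz]))
        rw [show 2 * z - 2 * m - (2 * z' - 2 * m) = 2 * (z - z') by ring, abs_mul,
          abs_of_pos (by norm_num : (0:ℝ) < 2)]
        linarith
    rw [Finset.card_image_of_injective _ hinj1] at h1
    rw [Finset.card_image_of_injective _ hinj2] at h2
    rw [hcard]
    exact add_le_add h1 h2

end Pool.Agent.V11293.TK
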