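import Pool.Agent.V11293.TK.Count

set_option autoImplicit false

open Set Filter Topology MeasureTheory

namespace Pool.Agent.V11293.TK

/-- `g` sits inside `G` as a piece of depth `d` with vertical offset `o` -/
def Sub (d : ℕ) (G g : ℝ → ℝ) (o : ℝ) : Prop :=
  ∀ (N : ℕ) (p q : ℝ), cnt N g (2 ^ d * (p - o)) (2 ^ d * (q - o)) ≤ cnt (N + d) G p q

lemma Sub.refl (G : ℝ → ℝ) : Sub 0 G G 0 := by
  intro N p q
  simp

lemma Sub.left (G : ℝ → ℝ) : Sub 1 G (LL G) 0 := by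
  intro N p q
  have : cnt (N + 1) G p q = cnt N (LL G) (2 * p) (2 * q) +
      cnt N (RR G) (2 * p - 2 * G (1 / 2)) (2 * q - 2 * G (1 / 2)) := rfl
  rw [this, pow_one, sub_zero, sub_zero]
  exact Nat.le_add_right _ _

lemma Sub.right (G : ℝ → ℝ) : Sub 1 G (RR G) (G (1 / 2)) := by
  intro N p q
  have : cnt (N + 1) G p q = cnt N (LL G) (2 * p) (2 * q) +
      cnt N (RR G) (2 * p - 2 * G (1 / 2)) (2 * q - 2 * G (1 / 2)) := rfl
  rw [this, pow_one, mul_sub, mul_sub]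
  exact Nat.le_add_left _ _

lemma Sub.trans {d e : ℕ} {G g h : ℝ → ℝ} {o o' : ℝ} (h1 : Sub d G g o) (h2 : Sub e g h o') :
    Sub (d + e) G h (o + o' / 2 ^ d) := by
  intro N p q
  have h3 := h2 N (2 ^ d * (p - o)) (2 ^ d * (q - o))
  have h4 := h1 (N + e) p q
  rw [show N + (d + e) = N + e + d by ring]
  refine le_trans (le_of_eq ?_) (h3.trans h4)
  have hd : (2 : ℝ) ^ d ≠ 0 := by positivity
  congr 1
  · rw [pow_add]; field_simp; ring
  · rw [pow_add]; field_simp; ring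

variable {P : (ℝ → ℝ) → Prop}

lemma down (hP : Cl P) (s : ℕ) : ∀ G, P G → G 1 = s →
    ∃ g o, P g ∧ g 1 = 0 ∧ 0 ≤ o ∧ o ≤ (s : ℝ) ∧ Sub s G g o := by
  induction s with
  | zero =>
    intro G h hs
    exact ⟨G, 0, h, by simpa using hs, le_rfl, by simp, Sub.refl G⟩
  | succ s ih =>
    intro G h hs
    have hL := LL_one G
    have hR := RR_one G
    have hs0 : (0 : ℝ) ≤ s := Nat.cast_nonneg s
    push_cast at hs
    rcases hP.half G h with h1 | h1
    · obtain ⟨g, o, hg, hg0, ho, ho2, hsub⟩ := ih (RR G) (hP.right G h) (by rw [hR, h1]; linarith)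
      refine ⟨g, G (1 / 2) + o / 2 ^ 1, hg, hg0, ?_, ?_, ?_⟩
      · rw [pow_one]; linarith
      · rw [pow_one]; push_cast; linarith
      · rw [add_comm s 1]
        exact (Sub.right G).trans hsub
    · obtain ⟨g, o, hg, hg0, ho, ho2, hsub⟩ := ih (LL G) (hP.left G h) (by rw [hL, h1]; linarith)
      refine ⟨g, 0 + o / 2 ^ 1, hg, hg0, ?_, ?_, ?_⟩
      · rw [pow_one]; linarith
      · rw [pow_one]; push_cast; linarith
      · rw [add_comm s 1]
        exact (Sub.left G).trans hsub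

lemma two (hP : Cl P) {G : ℝ → ℝ} (h : P G) (hs : G 1 = 0) :
    ∃ g o, P g ∧ g 1 = 0 ∧ -(1 / 2) ≤ o ∧ o ≤ (1 / 2 : ℝ) ∧ Sub 2 G g o := by
  have hL := LL_one G
  have hR := RR_one G
  rcases hP.half G h with h1 | h1
  · obtain ⟨g, o, hg, hg0, ho, ho2, hsub⟩ := down hP 1 (LL G) (hP.left G h)
      (by rw [hL, h1, hs]; norm_num)
    push_cast at ho2
    refine ⟨g, 0 + o / 2 ^ 1, hg, hg0, ?_, ?_, (Sub.left G).trans hsub⟩
    · rw [pow_one]; linarith
    · rw [pow_one]; linarith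
  · obtain ⟨g, o, hg, hg0, ho, ho2, hsub⟩ := down hP 1 (RR G) (hP.right G h)
      (by rw [hR, h1, hs]; norm_num)
    push_cast at ho2
    rw [hs] at h1
    refine ⟨g, G (1 / 2) + o / 2 ^ 1, hg, hg0, ?_, ?_, (Sub.right G).trans hsub⟩
    · rw [pow_one]; linarith
    · rw [pow_one]; linarith

lemma step2 (hP : Cl P) {G : ℝ → ℝ} (h : P G) (hs : G 1 = 1) :
    ∃ g, P g ∧ g 1 = 2 ∧ Sub 1 G g 0 := by
  have hL := LL_one G
  have hR := RR_one G
  rcases hP.half G h with h1 | h1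
  · exact ⟨LL G, hP.left G h, by rw [hL, h1, hs]; norm_num, Sub.left G⟩
  · refine ⟨RR G, hP.right G h, by rw [hR, h1, hs]; norm_num, ?_⟩
    have h2 : G (1 / 2) = 0 := by rw [hs] at h1; linarith
    have := Sub.right G
    rwa [h2] at this

lemma step3 (hP : Cl P) {G : ℝ → ℝ} (h : P G) (hs : G 1 = 2) :
    ∃ g o, P g ∧ g 1 = 3 ∧ (o = 0 ∨ o = 1 / 2) ∧ Sub 1 G g o := by
  have hL := LL_one G
  have hR := RR_one G
  rcases hP.half G h with h1 | h1
  · exact ⟨LL G, 0, hP.left G h, by rw [hL, h1, hs]; norm_num, Or.inl rfl, Sub.left G⟩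
  · refine ⟨RR G, G (1 / 2), hP.right G h, by rw [hR, h1, hs]; norm_num, Or.inr ?_, Sub.right G⟩
    rw [hs] at h1; linarith

lemma step4 (hP : Cl P) {G : ℝ → ℝ} (h : P G) (hs : G 1 = 1) :
    ∃ (g : ℝ → ℝ) (o : ℝ) (s : ℕ), P g ∧ g 1 = s ∧ (s = 2 ∨ s = 4) ∧ 1 / 4 ≤ o ∧ o + s / 8 ≤ 3 / 4 ∧
      Sub 3 G g o := by
  obtain ⟨g2, hg2, hs2, sub2⟩ := step2 hP h hs
  obtain ⟨g3, o3, hg3, hs3, ho3, sub3⟩ := step3 hP hg2 hs2
  have hL := LL_one g3
  have hR := RR_one g3
  have sub13 := sub2.trans sub3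
  rcases ho3 with rfl | rfl
  · have sub14 := sub13.trans (Sub.right g3)
    rcases hP.half g3 hg3 with h1 | h1
    · refine ⟨RR g3, _, 2, hP.right g3 hg3, ?_, Or.inl rfl, ?_, ?_, sub14⟩
      · rw [hR, h1, hs3]; norm_num
      · rw [hs3] at h1; rw [show g3 (1 / 2) = 2 by linarith]; norm_num
      · rw [hs3] at h1; rw [show g3 (1 / 2) = 2 by linarith]; norm_num
    · refine ⟨RR g3, _, 4, hP.right g3 hg3, ?_, Or.inr rfl, ?_, ?_, sub14⟩
      · rw [hR, h1, hs3]; norm_num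
      · rw [hs3] at h1; rw [show g3 (1 / 2) = 1 by linarith]; norm_num
      · rw [hs3] at h1; rw [show g3 (1 / 2) = 1 by linarith]; norm_num
  · have sub14 := sub13.trans (Sub.left g3)
    rcases hP.half g3 hg3 with h1 | h1
    · refine ⟨LL g3, _, 4, hP.left g3 hg3, ?_, Or.inr rfl, ?_, ?_, sub14⟩
      · rw [hL, h1, hs3]; norm_num
      · norm_num
      · norm_num
    · refine ⟨LL g3, _, 2, hP.left g3 hg3, ?_, Or.inl rfl, ?_, ?_, sub14⟩
      · rw [hL, h1, hs3]; norm_num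
      · norm_num
      · norm_num

lemma interior (hP : Cl P) {G : ℝ → ℝ} (h : P G) (hs : G 1 = 1) :
    ∃ g o, P g ∧ g 1 = 0 ∧ 1 / 8 ≤ o ∧ o ≤ (7 / 8 : ℝ) ∧ Sub 7 G g o := by
  obtain ⟨g4, o4, s, hg4, hs4, hs, ho4, ho4', sub4⟩ := step4 hP h hs
  obtain ⟨g, o, hg, hg0, ho, ho', hsub⟩ := down hP s g4 hg4 hs4
  have sub5 := sub4.trans hsub
  rcases hs with rfl | rfl
  · obtain ⟨g', o', hg', hg0', ha, hb, hsub'⟩ := two hP hg hg0
    refine ⟨g', _, hg', hg0', ?_, ?_, sub5.trans hsub'⟩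
    · norm_num at *; linarith
    · norm_num at *; linarith
  · refine ⟨g, _, hg, hg0, ?_, ?_, sub5⟩
    · norm_num at *; linarith
    · norm_num at *; linarith

lemma strand_app (hP : Cl P) {H : ℝ → ℝ} (h : P H) (hs : H 1 = 1) (N r : ℕ) (p q : ℝ) (hp : 0 ≤ p)
    (hq : q ≤ 1) (hr : ((r : ℝ) + 2) * ((N + 2) / 2 ^ N) ≤ q - p) : r + 1 ≤ cnt N H p q := by
  classical
  set δ : ℝ := (N + 2) / 2 ^ N with hδ
  have hδ0 : 0 < δ := by positivity
  have hinj : Function.Injective (fun j : ℕ => p + ((j : ℝ) + 1) * δ) := by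
    intro a b hab
    simp only [add_right_inj, mul_eq_mul_right_iff] at hab
    rcases hab with hab | hab
    · exact_mod_cast (add_right_cancel hab)
    · exact absurd hab hδ0.ne'
  have hcard : ((Finset.range (r + 1)).image (fun j : ℕ => p + ((j : ℝ) + 1) * δ)).card = r + 1 := by
    rw [Finset.card_image_of_injective _ hinj, Finset.card_range]
  rw [← hcard]
  have hCe : (((1 : ℝ) + N) + 1) / 2 ^ N = δ := by rw [hδ]; ring
  apply strand hP (1 + N) (by positivity) N H p q _ h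
  · rw [hs]; simp
  · intro y hy
    rw [Finset.mem_image] at hy
    obtain ⟨j, hj, rfl⟩ := hy
    rw [Finset.mem_range] at hj
    have hj' : (j : ℝ) ≤ r := by exact_mod_cast Nat.lt_succ_iff.1 hj
    have hj0 : (0 : ℝ) ≤ j := Nat.cast_nonneg j
    have h1 : ((j : ℝ) + 1) * δ ≤ (r + 1) * δ := by gcongr
    have h2 : δ ≤ ((j : ℝ) + 1) * δ := by nlinarith
    rw [hCe, hs]
    refine ⟨?_, by linarith, by linarith⟩
    rw [Set.mem_uIcc]
    left
    constructor
    · positivity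
    · linarith
  · intro y hy y' hy' hne
    rw [Finset.mem_image] at hy hy'
    obtain ⟨j, hj, rfl⟩ := hy
    obtain ⟨j', hj', rfl⟩ := hy'
    have hjj : j ≠ j' := fun hh => hne (by rw [hh])
    have h1 : (1 : ℝ) ≤ |(j : ℝ) - j'| := by
      have : (1 : ℤ) ≤ |(j : ℤ) - j'| := Int.one_le_abs (sub_ne_zero.2 (by exact_mod_cast hjj))
      exact_mod_cast this
    rw [show p + ((j : ℝ) + 1) * δ - (p + ((j' : ℝ) + 1) * δ) = (j - j') * δ by ring, abs_mul,
      abs_of_pos hδ0]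
    have h3 : (1 + (N : ℝ)) / 2 ^ N < δ := by
      rw [hδ]
      exact div_lt_div_of_pos_right (by linarith) (by positivity)
    have h4 : δ ≤ |(j : ℝ) - j'| * δ := by nlinarith
    linarith

/-- every slope zero function of the class has a window of length `l` with at least `c` inner nodes
of depth `N` -/
def Win (P : (ℝ → ℝ) → Prop) (N : ℕ) (l : ℝ) (c : ℕ) : Prop :=
  ∀ G, P G → G 1 = 0 → ∃ p q, -1 ≤ p ∧ q ≤ 1 ∧ q - p = l ∧ c ≤ cnt N G p q

lemma win_step (hP : Cl P) {N c m : ℕ} {l : ℝ} (h : Win P N l c)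
    (hm : m = 0 ∨ ((m : ℝ) + 1) * (N + 9) ≤ l * 2 ^ N) : Win P (N + 8) (l / 256) (c + m) := by
  have key : ∀ G, P G → G 1 = 0 → 2 * G (1 / 2) = 1 →
      ∃ p q, -1 ≤ p ∧ q ≤ 1 ∧ q - p = l / 256 ∧ c + m ≤ cnt (N + 8) G p q := by
    intro G hG hs h1
    have hL : LL G 1 = 1 := by rw [LL_one, h1]
    have hR : RR G 1 = -1 := by rw [RR_one, h1, hs]; norm_num
    obtain ⟨g, o, hg, hg0, ho, ho', hsub⟩ := interior hP (hP.left G hG) hL
    obtain ⟨pg, qg, hpg, hqg, hlen, hc⟩ := h g hg hg0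
    set p : ℝ := o / 2 + pg / 256 with hp
    set q : ℝ := o / 2 + qg / 256 with hq
    have hlenl : l ≤ 2 := by linarith
    have hql : q - p = l / 256 := by rw [hp, hq]; linarith
    refine ⟨p, q, ?_, ?_, hql, ?_⟩
    · rw [hp]; linarith
    · rw [hq]; linarith
    have e8 : cnt (N + 8) G p q = cnt (N + 7) (LL G) (2 * p) (2 * q) +
        cnt (N + 7) (RR G) (2 * p - 2 * G (1 / 2)) (2 * q - 2 * G (1 / 2)) := rfl
    rw [e8]
    apply add_le_add
    · have h2 := hsub N (2 * p) (2 * q)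
      refine hc.trans (le_trans (le_of_eq ?_) h2)
      congr 1
      · rw [hp]; ring
      · rw [hq]; ring
    · rcases hm with rfl | hm
      · exact Nat.zero_le _
      rcases Nat.eq_zero_or_pos m with rfl | hmpos
      · exact Nat.zero_le _
      obtain ⟨r, rfl⟩ : ∃ r, m = r + 1 := ⟨m - 1, by omega⟩
      rw [h1, ← cnt_neg]
      have hl0 : 0 < l := by
        have : (0 : ℝ) < l * 2 ^ N := lt_of_lt_of_le (by positivity) hm
        exact pos_of_mul_pos_left this (by positivity)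
      have hN : P (fun t => - RR G t) := hP.neg _ (hP.right G hG)
      apply strand_app hP hN (by simp only [hR, neg_neg]) (N + 7) r
      · have : qg ≤ 1 := hqg
        rw [hq]; linarith
      · rw [hp]; linarith
      · have h3 : -(2 * p - 1) - -(2 * q - 1) = l / 128 := by linarith
        rw [h3]
        push_cast at hm ⊢
        have h4 : ((N : ℝ) + 7 + 2) / 2 ^ (N + 7) = (N + 9) / 2 ^ N / 128 := by
          rw [pow_add]; norm_num; field_simp; ring
        rw [h4, mul_div_assoc', mul_div_assoc']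
        apply div_le_div_of_nonneg_right _ (by norm_num)
        rw [div_le_iff₀ (by positivity)]
        linarith
  intro G hG hs
  rcases hP.half G hG with h1 | h1
  · exact key G hG hs (by rw [h1, hs]; norm_num)
  · obtain ⟨p, q, ha, hb, hc, hd⟩ := key (fun t => - G t) (hP.neg G hG) (by simp only [hs, neg_zero])
      (by rw [hs] at h1; linarith)
    refine ⟨-q, -p, by linarith, by linarith, by linarith, ?_⟩
    rw [← cnt_neg, neg_neg, neg_neg]
    exact hd


lemma win_iter (hP : Cl P) (N0 K : ℕ) : ∃ c : ℕ, Win P (N0 + 8 * K) (2 / 256 ^ K) c ∧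
    2 ^ (N0 + 1) * (∑ j ∈ Finset.range K, (1 : ℝ) / (N0 + 8 * j + 9)) - 2 * K ≤ c := by
  induction K with
  | zero =>
    refine ⟨0, ?_, by simp⟩
    intro G h hs
    exact ⟨-1, 1, le_rfl, le_rfl, by norm_num, Nat.zero_le _⟩
  | succ K ih =>
    obtain ⟨c, hw, hc⟩ := ih
    set x : ℝ := 2 ^ (N0 + 1) * (1 / (N0 + 8 * K + 9)) with hx
    have hx0 : 0 ≤ x := by positivity
    refine ⟨c + (⌊x⌋₊ - 1), ?_, ?_⟩
    · have h1 := win_step hP (m := ⌊x⌋₊ - 1) hw ?_
      · rw [show N0 + 8 * (K + 1) = N0 + 8 * K + 8 by ring]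
        rw [show (2 : ℝ) / 256 ^ (K + 1) = 2 / 256 ^ K / 256 by rw [pow_succ]; field_simp]
        exact h1
      · rcases Nat.eq_zero_or_pos (⌊x⌋₊ - 1) with h0 | h0
        · exact Or.inl h0
        · right
          have h2 : ((⌊x⌋₊ - 1 : ℕ) : ℝ) + 1 = (⌊x⌋₊ : ℝ) := by
            rw [← Nat.cast_add_one]; congr 1; omega
          rw [h2]
          have h3 : (⌊x⌋₊ : ℝ) ≤ x := Nat.floor_le hx0
          push_cast
          have h4 : (2 : ℝ) / 256 ^ K * 2 ^ (N0 + 8 * K) = 2 ^ (N0 + 1) := by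
            rw [pow_add, pow_mul, pow_add]
            norm_num
            field_simp
          rw [h4]
          have h5 : x * (N0 + 8 * K + 9) = 2 ^ (N0 + 1) := by
            rw [hx]; field_simp
          rw [← h5]
          gcongr
    · rw [Finset.sum_range_succ, mul_add, ← hx]
      have h1 : x - 1 < ⌊x⌋₊ := Nat.sub_one_lt_floor x
      have h2 : (⌊x⌋₊ : ℝ) - 1 ≤ ((⌊x⌋₊ - 1 : ℕ) : ℝ) := by
        rcases Nat.eq_zero_or_pos ⌊x⌋₊ with h0 | h0
        · rw [h0]; simp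
        · rw [Nat.cast_sub h0]; simp
      push_cast
      linarith

lemma harm_lower (N0 K : ℕ) (hN : 1 ≤ N0) (hK : 1 ≤ K) :
    (Real.log K - 1 - Real.log N0) / 9 ≤ ∑ j ∈ Finset.range K, (1 : ℝ) / (N0 + 8 * j + 9) := by
  have h1 : ∑ j ∈ Finset.range K, (1 : ℝ) / (N0 + j + 1) = (harmonic (N0 + K) : ℝ) - harmonic N0 := by
    rw [harmonic_eq_sum_Icc, harmonic_eq_sum_Icc]
    push_cast
    have h2 : ∀ n : ℕ, ∑ i ∈ Finset.Icc 1 n, ((i : ℝ))⁻¹ = ∑ i ∈ Finset.range n, (1 : ℝ) / (i + 1) := by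
      intro n
      induction n with
      | zero => simp
      | succ n ih =>
        rw [Finset.sum_range_succ, ← ih, Finset.sum_Icc_succ_top (by omega)]
        push_cast
        rw [one_div]
    rw [h2, h2, Finset.sum_range_add]
    push_cast
    ring_nf
  have h2 : Real.log ((N0 + K : ℕ) + 1) ≤ harmonic (N0 + K) := by
    exact_mod_cast log_add_one_le_harmonic (N0 + K)
  have h3 : (harmonic N0 : ℝ) ≤ 1 + Real.log N0 := harmonic_le_one_add_log N0
  have hK' : (1 : ℝ) ≤ K := by exact_mod_cast hK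
  have h4 : Real.log K ≤ Real.log ((N0 + K : ℕ) + 1) := by
    apply Real.log_le_log (by linarith)
    push_cast
    have : (0 : ℝ) ≤ N0 := Nat.cast_nonneg _
    linarith
  calc (Real.log K - 1 - Real.log N0) / 9 ≤ (∑ j ∈ Finset.range K, (1 : ℝ) / (N0 + j + 1)) / 9 := by
        rw [h1]; linarith
    _ = ∑ j ∈ Finset.range K, (1 : ℝ) / (N0 + j + 1) / 9 := by rw [Finset.sum_div]
    _ ≤ _ := by
        apply Finset.sum_le_sum
        intro j _
        rw [div_div]
        apply one_div_le_one_div_of_le (by positivity)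
        have : (0 : ℝ) ≤ N0 := Nat.cast_nonneg _
        have : (0 : ℝ) ≤ j := Nat.cast_nonneg _
        linarith

lemma dense (hP : Cl P) (A : ℝ) : ∃ (N : ℕ) (l : ℝ) (c : ℕ), 0 < l ∧ Win P N l c ∧
    A * l * 2 ^ N ≤ c := by
  obtain ⟨N0, hN0, hA⟩ : ∃ N0 : ℕ, 1 ≤ N0 ∧ A ≤ ((N0 : ℝ) * Real.log 2 - 1 - Real.log N0) / 9 - 1 := by
    obtain ⟨n, hn⟩ := exists_nat_ge ((9 * (A + 1) + 2) * (5 / 2))
    refine ⟨n + 1, by omega, ?_⟩
    have h0 : (0 : ℝ) ≤ n := Nat.cast_nonneg n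
    have h1 : Real.log ((n + 1 : ℕ) / 4 : ℝ) ≤ (n + 1 : ℕ) / 4 - 1 :=
      Real.log_le_sub_one_of_pos (by positivity)
    rw [Real.log_div (by positivity) (by norm_num), show (4 : ℝ) = 2 ^ 2 by norm_num,
      Real.log_pow] at h1
    have h2 := Real.log_two_gt_d9
    have h3 := Real.log_two_lt_d9
    push_cast at h1 ⊢
    have h4 : ((n : ℝ) + 1) * (69 / 100) ≤ (n + 1) * Real.log 2 := by
      apply mul_le_mul_of_nonneg_left _ (by positivity)
      linarith
    linarith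
  obtain ⟨c, hw, hc⟩ := win_iter hP N0 (2 ^ N0)
  refine ⟨_, _, c, by positivity, hw, ?_⟩
  have h1 := harm_lower N0 (2 ^ N0) hN0 Nat.one_le_two_pow
  push_cast at h1 hc
  rw [Real.log_pow] at h1
  have h4 : (2 : ℝ) / 256 ^ (2 ^ N0) * 2 ^ (N0 + 8 * 2 ^ N0) = 2 ^ (N0 + 1) := by
    rw [pow_add, pow_mul, pow_add]
    norm_num
    field_simp
  rw [mul_assoc, h4]
  have hX : (0 : ℝ) < 2 ^ (N0 + 1) := by positivity
  have h5 : (2 : ℝ) * 2 ^ N0 = 2 ^ (N0 + 1) := by rw [pow_succ]; ring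
  rw [h5] at hc
  refine le_trans ?_ hc
  have h6 : A + 1 ≤ ∑ j ∈ Finset.range (2 ^ N0), (1 : ℝ) / (N0 + 8 * j + 9) := by linarith
  nlinarith

theorem aa_zero (hP : Cl P) : aa P = 0 := by
  by_contra hne
  have hfin : aa P ≠ ⊤ := ne_top_of_le_ne_top (by norm_num) (aa_le hP)
  set a : ℝ := (aa P).toReal with ha
  have ha0 : 0 < a := ENNReal.toReal_pos hne hfin
  have haa : aa P = ENNReal.ofReal a := (ENNReal.ofReal_toReal hfin).symm
  obtain ⟨N, l, c, hl, hw, hc⟩ := dense hP (2 / a)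
  have key : aa P ≤ ENNReal.ofReal (a - l) := by
    unfold aa
    refine iSup_le fun G => iSup_le fun h => ?_
    obtain ⟨p, q, hp, hq, hpq, hcc⟩ := hw G h.1 h.2
    have h1 : volume (SS G) ≤ volume (Icc p q) + volume (SS G \ Icc p q) := by
      refine (measure_mono ?_).trans (measure_union_le _ _)
      intro y hy
      by_cases hy2 : y ∈ Icc p q
      · exact Or.inl hy2
      · exact Or.inr ⟨hy, hy2⟩
    refine h1.trans ((add_le_add le_rfl (vol_out hP N G p q h.1)).trans ?_)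
    rw [Real.volume_Icc, hpq, haa]
    have h2 : ((2 ^ N - cnt N G p q : ℕ) : ENNReal) / 2 ^ N =
        ENNReal.ofReal (((2 ^ N - cnt N G p q : ℕ) : ℝ) / 2 ^ N) := by
      rw [ENNReal.ofReal_div_of_pos (by positivity), ENNReal.ofReal_natCast,
        ENNReal.ofReal_pow (by norm_num)]
      norm_num
    rw [h2, ← ENNReal.ofReal_mul (by positivity), ← ENNReal.ofReal_add hl.le (by positivity)]
    apply ENNReal.ofReal_le_ofReal
    have h3 : ((2 ^ N - cnt N G p q : ℕ) : ℝ) = 2 ^ N - cnt N G p q := by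
      rw [Nat.cast_sub (cnt_le N G p q)]; push_cast; ring
    rw [h3]
    have h4 : (c : ℝ) ≤ cnt N G p q := by exact_mod_cast hcc
    have h5 : 2 / a * l * 2 ^ N ≤ cnt N G p q := hc.trans h4
    have h6 : 2 / a * l ≤ cnt N G p q / 2 ^ N := by
      rw [le_div_iff₀ (by positivity)]; exact h5
    have h7 : 2 * l ≤ cnt N G p q / 2 ^ N * a := by
      have : 2 / a * l * a = 2 * l := by field_simp
      rw [← this]
      gcongr
    rw [sub_div, div_self (by positivity), sub_mul, one_mul]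
    linarith
  rw [haa] at key
  have h8 := (ENNReal.ofReal_le_ofReal_iff' ).1 key
  rcases h8 with h8 | h8 <;> linarith

theorem ae_finite (hP : Cl P) {G : ℝ → ℝ} (h : P G) : volume (SS G) = 0 := by
  have := vol_le hP h
  rw [aa_zero hP] at this
  exact le_antisymm this zero_le

end Pool.Agent.V11293.TK
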